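import Mathlib
import Pool.Agent.H944.BW.Ring

/-!
Parity words of cycles of the maps `x ↦ x / 2` (`x` even), `x ↦ (a x + b) / 2` (`x` odd) that are balanced
products of two words.
-/

set_option autoImplicit false

namespace Pool.Agent.H944.BX

open Finset Pool.Agent.H944.BW

/-- The map `x ↦ x / 2` (`x` even), `x ↦ (a x + b) / 2` (`x` odd) on the integers. -/
def T (a b : ℤ) (x : ℤ) : ℤ := if x % 2 = 0 then x / 2 else (a * x + b) / 2

/-- The parity word of length `n` of `x`: its letter number `i` is `true` if `T^i x` is odd. -/
def word (a b : ℤ) (x : ℤ) (n : ℕ) : List Bool :=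
  (List.range n).map fun i => decide ((T a b)^[i] x % 2 = 1)

/-- The word in `u` and `v` whose factor number `i < p + q` is `v` if the integer part of
`(i p + s) / (p + q)` increases from `i` to `i + 1`, and `u` otherwise. -/
def balanced (p q s : ℕ) (u v : List Bool) : List Bool :=
  (List.range (p + q)).flatMap fun i =>
    if (i * p + s) / (p + q) < ((i + 1) * p + s) / (p + q) then v else u

variable {a b : ℤ}

theorem word_length (x : ℤ) (n : ℕ) : (word a b x n).length = n := by simp [word]

theorem word_succ (x : ℤ) (n : ℕ) :
    word a b x (n + 1) = decide (x % 2 = 1) :: word a b (T a b x) n := by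
  unfold word
  rw [List.range_succ_eq_map, List.map_cons, List.map_map]
  rfl

theorem word_add (x : ℤ) (m n : ℕ) :
    word a b x (m + n) = word a b x m ++ word a b ((T a b)^[m] x) n := by
  induction m generalizing x with
  | zero => rw [Nat.zero_add]; rfl
  | succ m ih =>
    rw [show m + 1 + n = (m + n) + 1 by ring, word_succ, ih, word_succ]
    rfl

/-- the constant of the affine map of a word -/
def cst (a : ℤ) : List Bool → ℤ
  | [] => 0
  | c :: u => (if c then a ^ (u.count true) else 0) + 2 * cst a u

theorem two_mul_T_even {x : ℤ} (hx : ¬ x % 2 = 1) : 2 * T a b x = x := by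
  unfold T; rw [if_pos (by omega)]; omega

theorem two_mul_T_odd (ha : a % 2 = 1) (hb : b % 2 = 1) {x : ℤ} (hx : x % 2 = 1) :
    2 * T a b x = a * x + b := by
  unfold T
  rw [if_neg (by omega)]
  have h1 : (a * x + b) % 2 = 0 := by
    rw [Int.add_emod, Int.mul_emod, ha, hx, hb]
    norm_num
  omega

theorem step (ha : a % 2 = 1) (hb : b % 2 = 1) (u : List Bool) (x : ℤ)
    (h : word a b x u.length = u) :
    2 ^ u.length * (T a b)^[u.length] x = a ^ (u.count true) * x + b * cst a u := by
  induction u generalizing x with
  | nil => simp [cst]
  | cons c u ih =>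
    rw [List.length_cons, word_succ] at h
    have h1 := (List.cons.inj h).1
    have h2 := (List.cons.inj h).2
    have h3 := ih (T a b x) h2
    rw [List.length_cons, Function.iterate_succ_apply]
    cases c with
    | false =>
      have hx : ¬ x % 2 = 1 := of_decide_eq_false h1
      have hT : 2 * T a b x = x := two_mul_T_even hx
      simp only [cst, List.count_cons, Bool.false_eq_true, if_false, beq_iff_eq, add_zero]
      rw [pow_succ]
      linear_combination 2 * h3 + a ^ (List.count true u) * hT
    | true =>
      have hx : x % 2 = 1 := of_decide_eq_true h1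
      have hT : 2 * T a b x = a * x + b := two_mul_T_odd ha hb hx
      simp only [cst, List.count_cons, if_true, beq_self_eq_true]
      rw [pow_succ, pow_succ]
      linear_combination 2 * h3 + a ^ (List.count true u) * hT

theorem cst_nonneg (ha : 3 ≤ a) (u : List Bool) : 0 ≤ cst a u := by
  induction u with
  | nil => simp [cst]
  | cons c u ih =>
    simp only [cst]
    split_ifs <;> positivity

theorem cst_le (ha : 3 ≤ a) (u : List Bool) :
    cst a u * 2 ^ (u.count true) ≤ 2 ^ u.length * (a ^ (u.count true) - 2 ^ (u.count true)) := by
  induction u with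
  | nil => simp [cst]
  | cons c u ih =>
    have hk : (2 : ℤ) ^ (u.count true) ≤ 2 ^ u.length :=
      pow_le_pow_right₀ (by norm_num) List.count_le_length
    have h3 : (0 : ℤ) < a ^ (u.count true) := by positivity
    cases c with
    | false =>
      simp only [cst, List.count_cons, Bool.false_eq_true, if_false, beq_iff_eq, add_zero,
        zero_add, List.length_cons]
      rw [pow_succ]
      linarith
    | true =>
      simp only [cst, List.count_cons, if_true, beq_self_eq_true, List.length_cons]
      rw [pow_succ, pow_succ, pow_succ]
      have h4 : (0 : ℤ) < 2 ^ u.length := by positivity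
      have h5 : a ^ (u.count true) * 2 ^ (u.count true) ≤ 2 ^ u.length * a ^ (u.count true) := by
        nlinarith
      have h6 : 2 ^ u.length * a ^ (u.count true) * 3 ≤ 2 ^ u.length * a ^ (u.count true) * a :=
        mul_le_mul_of_nonneg_left ha (by positivity)
      nlinarith

theorem cst_le' (ha : 3 ≤ a) (u : List Bool) :
    (cst a u : ℝ) ≤ 2 ^ u.length * ((a : ℝ) / 2) ^ (u.count true) := by
  have h1 : (cst a u : ℝ) * 2 ^ (u.count true) ≤ 2 ^ u.length * (a : ℝ) ^ (u.count true) := by
    have h2 : cst a u * 2 ^ (u.count true) ≤ 2 ^ u.length * a ^ (u.count true) := by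
      refine (cst_le ha u).trans ?_
      have : (0 : ℤ) ≤ 2 ^ (u.count true) := by positivity
      have h3 : (0 : ℤ) ≤ 2 ^ u.length := by positivity
      nlinarith
    exact_mod_cast h2
  rw [div_pow, ← mul_div_assoc, le_div_iff₀ (by positivity)]
  exact h1

/-- positions of the blocks -/
def pos (B : ℕ → List Bool) (i : ℕ) : ℕ := ∑ j ∈ range i, (B j).length

theorem pos_succ (B : ℕ → List Bool) (i : ℕ) : pos B (i + 1) = pos B i + (B i).length := by
  unfold pos
  rw [Finset.sum_range_succ]

theorem length_flatMap (B : ℕ → List Bool) (m : ℕ) :
    ((List.range m).flatMap B).length = pos B m := by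
  induction m with
  | zero => simp [pos]
  | succ m ih =>
    rw [List.range_succ, List.flatMap_append, List.length_append, ih, pos_succ]
    simp

theorem blocks (x : ℤ) (B : ℕ → List Bool) (m : ℕ)
    (h : word a b x (pos B m) = (List.range m).flatMap B) :
    ∀ i < m, word a b ((T a b)^[pos B i] x) (B i).length = B i := by
  induction m with
  | zero => intro i hi; omega
  | succ m ih =>
    rw [pos_succ, word_add, List.range_succ, List.flatMap_append] at h
    have h1 := List.append_inj h (by rw [word_length, length_flatMap])
    intro i hi
    rcases Nat.lt_succ_iff_lt_or_eq.1 hi with h2 | rfl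
    · exact ih h1.1 i h2
    · have := h1.2
      simpa using this

end Pool.Agent.H944.BX
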