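import Mathlib
import Pool.Agent.H944.BX.Words

/-!
`2 ^ L - a ^ K` divides `b` times the constant of the commutator of the two words.
-/

set_option autoImplicit false

namespace Pool.Agent.H944.BX

open Finset Pool.Agent.H944.BW

/-- the factor number `i` of `balanced p q s u v` -/
def blk (p q s : ℕ) (u v : List Bool) (i : ℕ) : List Bool :=
  if (i * p + s) / (p + q) < ((i + 1) * p + s) / (p + q) then v else u

theorem blk_eq {p q s : ℕ} (hm : 0 < p + q) (u v : List Bool) (i : ℕ) :
    blk p q s u v i = if th (p + q) p s (i + 1) < p then v else u := by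
  unfold blk
  have h := (th_succ (p := p) (q := q) (s := s) (i := i) hm).1
  by_cases hc : th (p + q) p s (i + 1) < p
  · rw [if_pos hc, if_pos (h.2 hc)]
  · rw [if_neg hc, if_neg (fun h' => hc (h.1 h'))]

theorem sum_blk {p q s : ℕ} (hp : 1 ≤ p) (hc : Nat.Coprime p q) (u v : List Bool)
    (g : List Bool → ℕ) : ∑ i ∈ range (p + q), g (blk p q s u v i) = q * g u + p * g v := by
  have hm : 0 < p + q := by omega
  have h1 : ∀ i, g (blk p q s u v i) = (fun j => g (if j < p then v else u)) (th (p + q) p s (i + 1)) :=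
    fun i => by rw [blk_eq hm]
  rw [Finset.sum_congr rfl (fun i _ => h1 i),
    sum_th hm ((Nat.coprime_self_add_right).2 hc) (fun j => g (if j < p then v else u)),
    Finset.sum_range_add]
  have h2 : ∑ x ∈ range p, g (if x < p then v else u) = p * g v := by
    rw [Finset.sum_congr rfl (g := fun _ => g v), Finset.sum_const, Finset.card_range, smul_eq_mul]
    intro x hx
    rw [if_pos (Finset.mem_range.1 hx)]
  have h3 : ∑ x ∈ range q, g (if p + x < p then v else u) = q * g u := by
    rw [Finset.sum_congr rfl (g := fun _ => g u), Finset.sum_const, Finset.card_range, smul_eq_mul]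
    intro x _
    rw [if_neg (by omega)]
  rw [h2, h3, add_comm]

/-- the data of a periodic point whose parity word is a balanced product -/
structure Pt (a b x : ℤ) (p q s : ℕ) (u v : List Bool) : Prop where
  ha : 3 ≤ a
  hao : a % 2 = 1
  hb : b % 2 = 1
  hp : 1 ≤ p
  hc : Nat.Coprime p q
  hw : word a b x (q * u.length + p * v.length) = balanced p q s u v
  hx : (T a b)^[q * u.length + p * v.length] x = x

variable {a b x : ℤ} {p q s : ℕ} {u v : List Bool}

theorem Pt.pos_eq (P : Pt a b x p q s u v) :
    pos (blk p q s u v) (p + q) = q * u.length + p * v.length :=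
  sum_blk P.hp P.hc u v List.length

theorem Pt.recur (P : Pt a b x p q s u v) (i : ℕ) (hi : i < p + q) :
    2 ^ (blk p q s u v i).length * (T a b)^[pos (blk p q s u v) (i + 1)] x =
      a ^ ((blk p q s u v i).count true) * (T a b)^[pos (blk p q s u v) i] x + b * cst a (blk p q s u v i) := by
  have h1 : word a b x (pos (blk p q s u v) (p + q)) = (List.range (p + q)).flatMap (blk p q s u v) := by
    rw [P.pos_eq, P.hw]
    rfl
  have h2 := step P.hao P.hb _ _ (blocks x _ _ h1 i hi)
  rw [pos_succ, add_comm (pos _ i), Function.iterate_add_apply]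
  exact h2

theorem Pt.last (P : Pt a b x p q s u v) : (T a b)^[pos (blk p q s u v) (p + q)] x = x := by
  rw [P.pos_eq, P.hx]

/-- the constant of the commutator -/
def com (a : ℤ) (u v : List Bool) : ℤ :=
  cst a u * (a ^ (v.count true) - 2 ^ v.length) - cst a v * (a ^ (u.count true) - 2 ^ u.length)

theorem cst_zero (ha : 3 ≤ a) (u : List Bool) (h : u.count true = 0) : cst a u = 0 := by
  have h1 := cst_le ha u
  rw [h] at h1
  have h2 := cst_nonneg ha u
  simp only [pow_zero, mul_one, sub_self, mul_zero] at h1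
  omega

theorem Pt.ring {R : Type} [CommRing R] (P : Pt a b x p q s u v) (U V W : Rˣ) (hU : (U : R) = 2)
    (hV : (V : R) = a) (hW : U * W = 1)
    (h : (2 : R) ^ (q * u.length + p * v.length) =
      (a : R) ^ (q * u.count true + p * v.count true)) :
    ((b * com a u v : ℤ) : R) = 0 := by
  have hUW : (2 : R) * W = 1 := by
    rw [← hU, ← Units.val_mul, hW, Units.val_one]
  have hUWn : ∀ n : ℕ, (2 : R) ^ n * (W : R) ^ n = 1 := by
    intro n
    rw [← mul_pow, hUW, one_pow]
  have hαγ : (V ^ u.count true * W ^ u.length) ^ q * (V ^ v.count true * W ^ v.length) ^ p = 1 := by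
    apply Units.ext
    push_cast
    rw [hV]
    have : ((a : R) ^ u.count true * (W : R) ^ u.length) ^ q *
      ((a : R) ^ v.count true * (W : R) ^ v.length) ^ p =
      (a : R) ^ (q * u.count true + p * v.count true) * (W : R) ^ (q * u.length + p * v.length) := by
      ring
    rw [this, ← h]
    exact hUWn _
  have key := core (V ^ u.count true * W ^ u.length) (V ^ v.count true * W ^ v.length)
    ((b : R) * (cst a u : R) * (W : R) ^ u.length) ((b : R) * (cst a v : R) * (W : R) ^ v.length) (s := s) P.hp P.hc hαγ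
    (fun i => (((T a b)^[pos (blk p q s u v) i] x : ℤ) : R)) (by
      intro i hi
      have h1 := congrArg (fun z : ℤ => (z : R)) (P.recur i hi)
      have h2 : ∀ w : List Bool, blk p q s u v i = w →
          (((T a b)^[pos (blk p q s u v) (i + 1)] x : ℤ) : R) =
          ((V ^ w.count true * W ^ w.length : Rˣ) : R) *
            (((T a b)^[pos (blk p q s u v) i] x : ℤ) : R) + (b : R) * (cst a w : R) * (W : R) ^ w.length := by
        intro w hw
        rw [hw] at h1
        push_cast at h1 ⊢
        rw [hV]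
        linear_combination (W : R) ^ w.length * h1 -
          (((T a b)^[pos (blk p q s u v) (i + 1)] x : ℤ) : R) * hUWn w.length
      by_cases hc : (i * p + s) / (p + q) < ((i + 1) * p + s) / (p + q)
      · rw [if_pos hc]
        exact h2 v (by unfold blk; rw [if_pos hc])
      · rw [if_neg hc]
        exact h2 u (by unfold blk; rw [if_neg hc])) (by
      simp only [P.last]
      rfl)
  push_cast at key
  rw [hV] at key
  unfold com
  push_cast
  linear_combination (2 : R) ^ u.length * 2 ^ v.length * key +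
    (b : R) * (-((cst a u : R) * (a : R) ^ v.count true) + (cst a v : R) * (a : R) ^ u.count true) *
      ((2 : R) ^ u.length * (W : R) ^ u.length * hUWn v.length + hUWn u.length) +
    (b : R) * (cst a u : R) * 2 ^ v.length * hUWn u.length -
    (b : R) * (cst a v : R) * 2 ^ u.length * hUWn v.length

theorem coprime_N (hao : a % 2 = 1) (L K : ℕ) (hL : 1 ≤ L) (hK : 1 ≤ K) :
    Nat.Coprime 2 ((2 : ℤ) ^ L - a ^ K).natAbs ∧ Nat.Coprime a.natAbs ((2 : ℤ) ^ L - a ^ K).natAbs := by
  have h0 : IsCoprime (2 : ℤ) a := by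
    refine ⟨-(a / 2), 1, ?_⟩
    have := Int.emod_add_mul_ediv a 2
    linarith
  constructor
  · rw [← Int.natAbs_natCast 2]
    refine Int.isCoprime_iff_gcd_eq_one.1 ?_
    have h1 : IsCoprime ((2 : ℕ) : ℤ) (-(a ^ K)) := (IsCoprime.pow_right h0).neg_right
    have h2 : (2 : ℤ) ^ L - a ^ K = -(a ^ K) + ((2 : ℕ) : ℤ) * 2 ^ (L - 1) := by
      obtain ⟨l, rfl⟩ : ∃ l, L = l + 1 := ⟨L - 1, by omega⟩
      rw [Nat.add_sub_cancel, pow_succ]
      push_cast
      ring
    rw [h2]
    exact h1.add_mul_left_right _
  · refine Int.isCoprime_iff_gcd_eq_one.1 ?_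
    have h1 : IsCoprime a ((2 : ℤ) ^ L) := IsCoprime.pow_right h0.symm
    have h2 : (2 : ℤ) ^ L - a ^ K = 2 ^ L + a * (-(a ^ (K - 1))) := by
      obtain ⟨l, rfl⟩ : ∃ l, K = l + 1 := ⟨K - 1, by omega⟩
      rw [Nat.add_sub_cancel, pow_succ]
      ring
    rw [h2]
    exact h1.add_mul_left_right _

theorem Pt.dvd (P : Pt a b x p q s u v) (hq : 1 ≤ q) (hu : 1 ≤ u.length) :
    (2 : ℤ) ^ (q * u.length + p * v.length) - a ^ (q * u.count true + p * v.count true) ∣
      b * com a u v := by
  have hL : 1 ≤ q * u.length + p * v.length := by nlinarith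
  by_cases hK : q * u.count true + p * v.count true = 0
  · have h1 : u.count true = 0 := by
      rcases Nat.eq_zero_or_pos (u.count true) with h | h
      · exact h
      · nlinarith
    have h2 : v.count true = 0 := by
      rcases Nat.eq_zero_or_pos (v.count true) with h | h
      · exact h
      · have := P.hp
        nlinarith
    have : com a u v = 0 := by
      unfold com
      rw [cst_zero P.ha u h1, cst_zero P.ha v h2]
      ring
    rw [this, mul_zero]
    exact dvd_zero _
  have hK1 : 1 ≤ q * u.count true + p * v.count true := Nat.one_le_iff_ne_zero.2 hK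
  obtain ⟨c2, c3⟩ := coprime_N P.hao _ _ hL hK1
  obtain ⟨N, hN⟩ : ∃ N : ℤ, N = (2 : ℤ) ^ (q * u.length + p * v.length) -
    a ^ (q * u.count true + p * v.count true) := ⟨_, rfl⟩
  rw [← hN] at c2 c3 ⊢
  have hNz : ((N : ℤ) : ZMod N.natAbs) = 0 := by
    rw [ZMod.intCast_zmod_eq_zero_iff_dvd]
    exact Int.natAbs_dvd.2 dvd_rfl
  have hfin : ((b * com a u v : ℤ) : ZMod N.natAbs) = 0 := by
    refine P.ring (ZMod.unitOfCoprime 2 c2) (ZMod.unitOfCoprime a.natAbs c3)
      (ZMod.unitOfCoprime 2 c2)⁻¹ ?_ ?_ (mul_inv_cancel _) ?_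
    · rw [ZMod.coe_unitOfCoprime]; norm_num
    · rw [ZMod.coe_unitOfCoprime]
      have h1 : ((a.natAbs : ℤ) : ZMod N.natAbs) = (a : ZMod N.natAbs) := by
        rw [Int.natAbs_of_nonneg (by linarith [P.ha])]
      rw [← h1, Int.cast_natCast]
    · have h1 := congrArg (fun z : ℤ => (z : ZMod N.natAbs)) hN
      rw [hNz] at h1
      push_cast at h1
      exact sub_eq_zero.1 h1.symm
  exact Int.natAbs_dvd.1 ((ZMod.intCast_zmod_eq_zero_iff_dvd (b * com a u v) N.natAbs).1 hfin)

end Pool.Agent.H944.BX
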