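import Mathlib
import Pool.Agent.TH419.FS.RidPow

/-!
`|2 ^ n - a ^ k|` is larger than a constant times `2 ^ (n (1 - η))` (from Ridout's theorem), `a ≥ 3` odd.
-/

set_option autoImplicit false

namespace Pool.Agent.H944.BX

open Pool.Agent.TH419.FS

theorem gap {c : ℕ} (hc3 : 3 ≤ c) (hco : c % 2 = 1) (η : ℝ) (hη : 0 < η) (hη1 : η < 1) :
    ∃ κ : ℝ, 0 < κ ∧ ∀ a b : ℕ, 1 ≤ a →
    κ * (2 : ℝ) ^ ((1 - η) * a) ≤ |(2 : ℝ) ^ a - (c : ℝ) ^ b| := by
  have hcop : Nat.Coprime 2 c := by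
    rw [Nat.Prime.coprime_iff_not_dvd Nat.prime_two]
    omega
  obtain ⟨κ1, hκ1, h1⟩ := ridout_pow (b := 2) (c := c) le_rfl (by omega) hcop 1 le_rfl η hη
  obtain ⟨κ2, hκ2, h2⟩ := ridout_pow (b := c) (c := 2) (by omega) le_rfl hcop.symm 1 le_rfl η hη
  set κ := min (min (κ1 / 2) (κ2 / 2)) (1 / 2) with hκ
  have hκa : κ ≤ κ1 / 2 := (min_le_left _ _).trans (min_le_left _ _)
  have hκb : κ ≤ κ2 / 2 := (min_le_left _ _).trans (min_le_right _ _)
  have hκc : κ ≤ 1 / 2 := min_le_right _ _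
  have hκ0 : 0 < κ := lt_min (lt_min (by positivity) (by positivity)) (by norm_num)
  refine ⟨κ, hκ0, fun a b ha => ?_⟩
  have hne : (2 : ℤ) ^ a ≠ (c : ℤ) ^ b := by
    intro h4
    have h7 : (2 : ℤ) ∣ (c : ℤ) ^ b := by
      rw [← h4]
      exact dvd_pow_self 2 (by omega)
    have := Int.prime_two.dvd_of_dvd_pow h7
    omega
  have hA : (0 : ℝ) < 2 ^ a := by positivity
  have hB : (0 : ℝ) < (c : ℝ) ^ b := by positivity
  have hpow : (2 : ℝ) ^ ((1 - η) * a) = 2 ^ a / ((2 : ℝ) ^ a) ^ η := by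
    rw [← Real.rpow_natCast, ← Real.rpow_mul (by norm_num), ← Real.rpow_sub (by norm_num)]
    congr 1
    ring
  have hple : (2 : ℝ) ^ ((1 - η) * a) ≤ 2 ^ a := by
    rw [← Real.rpow_natCast]
    apply Real.rpow_le_rpow_of_exponent_le (by norm_num)
    have : (0 : ℝ) ≤ a := Nat.cast_nonneg _
    nlinarith
  have hpp : (0 : ℝ) < (2 : ℝ) ^ ((1 - η) * a) := by positivity
  have h2η : (2 : ℝ) ^ η ≤ 2 := by
    calc (2 : ℝ) ^ η ≤ 2 ^ (1 : ℝ) := Real.rpow_le_rpow_of_exponent_le (by norm_num) hη1.le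
      _ = 2 := Real.rpow_one _
  rcases le_total ((2 : ℝ) ^ a) ((c : ℝ) ^ b) with hle | hle
  · by_cases hbig : (c : ℝ) ^ b ≤ 2 * 2 ^ a
    · have h3 := h1 a b 1 (by exact_mod_cast hle) (by
        push_cast
        rw [one_mul, one_mul]
        exact fun h => hne h.symm)
      push_cast at h3
      rw [one_mul] at h3
      have h4 : ((c : ℝ) ^ b) ^ η ≤ 2 * ((2 : ℝ) ^ a) ^ η := by
        calc ((c : ℝ) ^ b) ^ η ≤ (2 * 2 ^ a) ^ η := Real.rpow_le_rpow hB.le hbig hη.le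
          _ = 2 ^ η * ((2 : ℝ) ^ a) ^ η := Real.mul_rpow (by norm_num) hA.le
          _ ≤ 2 * ((2 : ℝ) ^ a) ^ η := mul_le_mul_of_nonneg_right h2η (by positivity)
      have h5 : |(c : ℝ) ^ b / 2 ^ a - 1| = |(2 : ℝ) ^ a - (c : ℝ) ^ b| / 2 ^ a := by
        rw [eq_div_iff hA.ne', ← abs_of_pos hA, ← abs_mul, abs_of_pos hA, sub_mul,
          div_mul_cancel₀ _ hA.ne', one_mul, abs_sub_comm]
      rw [h5] at h3
      have h6 : κ1 ≤ 2 * ((2 : ℝ) ^ a) ^ η * (|(2 : ℝ) ^ a - (c : ℝ) ^ b| / 2 ^ a) :=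
        h3.trans (mul_le_mul_of_nonneg_right h4 (by positivity))
      rw [hpow]
      have h7 : 0 < ((2 : ℝ) ^ a) ^ η := by positivity
      rw [← mul_div_assoc, div_le_iff₀ h7]
      have h8 : κ1 * 2 ^ a ≤ 2 * ((2 : ℝ) ^ a) ^ η * |(2 : ℝ) ^ a - (c : ℝ) ^ b| := by
        rw [← mul_div_assoc, le_div_iff₀ hA] at h6
        exact h6
      nlinarith
    · push Not at hbig
      have h9 : (2 : ℝ) ^ a ≤ |(2 : ℝ) ^ a - (c : ℝ) ^ b| := by
        rw [abs_sub_comm, abs_of_nonneg (by linarith)]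
        linarith
      nlinarith
  · by_cases hbig : (2 : ℝ) ^ a ≤ 2 * (c : ℝ) ^ b
    · have h3 := h2 b a 1 (by exact_mod_cast hle) (by
        push_cast
        rw [one_mul, one_mul]
        exact hne)
      push_cast at h3
      rw [one_mul] at h3
      have h5 : |(2 : ℝ) ^ a / (c : ℝ) ^ b - 1| = |(2 : ℝ) ^ a - (c : ℝ) ^ b| / (c : ℝ) ^ b := by
        rw [eq_div_iff hB.ne', ← abs_of_pos hB, ← abs_mul, abs_of_pos hB, sub_mul,
          div_mul_cancel₀ _ hB.ne', one_mul]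
      rw [h5] at h3
      have h7 : 0 < ((2 : ℝ) ^ a) ^ η := by positivity
      rw [hpow, ← mul_div_assoc, div_le_iff₀ h7]
      have h8 : κ2 * (c : ℝ) ^ b ≤ ((2 : ℝ) ^ a) ^ η * |(2 : ℝ) ^ a - (c : ℝ) ^ b| := by
        rw [← mul_div_assoc, le_div_iff₀ hB] at h3
        exact h3
      nlinarith
    · push Not at hbig
      have h9 : (1 / 2 : ℝ) * 2 ^ a ≤ |(2 : ℝ) ^ a - (c : ℝ) ^ b| := by
        rw [abs_of_nonneg (by linarith)]
        linarith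
      nlinarith

end Pool.Agent.H944.BX
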