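import Mathlib
import Pool.Agent.H944.BX.Div

/-!
The case of commuting words, the size of the constant of the commutator, and periodic points.
-/

set_option autoImplicit false

namespace Pool.Agent.H944.BX

open Finset Pool.Agent.H944.BW

/-- the affine map of a word over the rational numbers -/
def aff (a b : ℤ) (u : List Bool) (y : ℚ) : ℚ :=
  ((a : ℚ) ^ (u.count true) * y + b * cst a u) / 2 ^ u.length

variable {a b x : ℤ} {p q s : ℕ} {u v : List Bool}

theorem pow_ne (hao : a % 2 = 1) (L K : ℕ) (hL : 1 ≤ L) : (2 : ℤ) ^ L ≠ a ^ K := by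
  intro h4
  have h7 : (2 : ℤ) ∣ a ^ K := by
    rw [← h4]
    exact dvd_pow_self 2 (by omega)
  have := Int.prime_two.dvd_of_dvd_pow h7
  omega

theorem aff_comm (h : com a u v = 0) (y : ℚ) : aff a b u (aff a b v y) = aff a b v (aff a b u y) := by
  have h1 : (cst a u : ℚ) * ((a : ℚ) ^ (v.count true) - 2 ^ v.length) -
      cst a v * ((a : ℚ) ^ (u.count true) - 2 ^ u.length) = 0 := by
    have := congrArg (fun z : ℤ => (z : ℚ)) h
    unfold com at this
    push_cast at this
    exact this
  unfold aff
  field_simp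
  linear_combination -(b : ℚ) * h1

theorem Pt.fix (P : Pt a b x p q s u v) (hq : 1 ≤ q) (hu : 1 ≤ u.length) (h : com a u v = 0)
    (w : List Bool) (hw : w = u ∨ w = v) : aff a b w x = x := by
  set m := p + q with hm
  set B := blk p q s u v with hB
  set X : ℕ → ℚ := fun i => (((T a b)^[pos B i] x : ℤ) : ℚ) with hXdef
  have hX : ∀ i < m, X (i + 1) = aff a b (B i) (X i) := by
    intro i hi
    have h1 := congrArg (fun z : ℤ => (z : ℚ)) (P.recur i hi)
    push_cast at h1
    unfold aff
    rw [eq_div_iff (by positivity)]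
    rw [mul_comm]
    exact h1
  have hcomm : ∀ i (y : ℚ), aff a b w (aff a b (B i) y) = aff a b (B i) (aff a b w y) := by
    intro i y
    have h2 : B i = u ∨ B i = v := by
      rw [hB]
      unfold blk
      split_ifs
      · exact Or.inr rfl
      · exact Or.inl rfl
    rcases hw with rfl | rfl <;> rcases h2 with h3 | h3 <;> rw [h3]
    · exact aff_comm h y
    · exact (aff_comm h y).symm
  have hE : ∀ i ≤ m, (2 : ℚ) ^ pos B i * (aff a b w (X i) - X i) =
      (a : ℚ) ^ (∑ j ∈ range i, (B j).count true) * (aff a b w (X 0) - X 0) := by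
    intro i
    induction i with
    | zero => intro _; simp [pos]
    | succ i ih =>
      intro hi
      have h1 := ih (by omega)
      rw [hX i (by omega), hcomm, pos_succ, Finset.sum_range_succ, pow_add, pow_add]
      have h2 : ∀ y z : ℚ, (2 : ℚ) ^ (B i).length * (aff a b (B i) y - aff a b (B i) z) =
          (a : ℚ) ^ (B i).count true * (y - z) := by
        intro y z
        unfold aff
        field_simp
        ring
      calc (2 : ℚ) ^ pos B i * 2 ^ (B i).length * (aff a b (B i) (aff a b w (X i)) - aff a b (B i) (X i))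
          = 2 ^ pos B i * (2 ^ (B i).length * (aff a b (B i) (aff a b w (X i)) - aff a b (B i) (X i))) := by ring
        _ = (a : ℚ) ^ (B i).count true * (2 ^ pos B i * (aff a b w (X i) - X i)) := by rw [h2]; ring
        _ = _ := by rw [h1]; ring
  have h3 := hE m le_rfl
  have hXm : X m = X 0 := by
    simp only [hXdef]
    rw [P.last]
    rfl
  rw [hXm, P.pos_eq, sum_blk P.hp P.hc u v (List.count true)] at h3
  have hne : (2 : ℚ) ^ (q * u.length + p * v.length) ≠
      (a : ℚ) ^ (q * u.count true + p * v.count true) := by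
    intro h4
    exact pow_ne P.hao (q * u.length + p * v.length) (q * u.count true + p * v.count true)
      (by nlinarith [P.hp]) (by exact_mod_cast h4)
  have h8 : aff a b w (X 0) - X 0 = 0 := by
    have h9 : ((2 : ℚ) ^ (q * u.length + p * v.length) -
      (a : ℚ) ^ (q * u.count true + p * v.count true)) * (aff a b w (X 0) - X 0) = 0 := by
      linear_combination h3
    rcases mul_eq_zero.1 h9 with h10 | h10
    · exact absurd (sub_eq_zero.1 h10) hne
    · exact h10
  have h11 : X 0 = (x : ℚ) := by simp [hXdef, pos]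
  rw [h11] at h8
  linarith

theorem Pt.com_ne (P : Pt a b x p q s u v) (hq : 1 ≤ q) (hu : 1 ≤ u.length) (hv : 1 ≤ v.length)
    (hmin : ∀ n, 1 ≤ n → n < q * u.length + p * v.length → (T a b)^[n] x ≠ x) : com a u v ≠ 0 := by
  intro h
  have hp := P.hp
  set B := blk p q s u v with hB
  have h2 : B 0 = u ∨ B 0 = v := by
    rw [hB]
    unfold blk
    split_ifs
    · exact Or.inr rfl
    · exact Or.inl rfl
  have h3 := P.fix hq hu h (B 0) h2
  have h4 := congrArg (fun z : ℤ => (z : ℚ)) (P.recur 0 (by omega))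
  push_cast at h4
  have h5 : pos B 0 = 0 := by simp [pos]
  have h6 : pos B (0 + 1) = (B 0).length := by rw [pos_succ, h5, zero_add]
  rw [← hB, h6, h5] at h4
  have h7 : (((T a b)^[(B 0).length] x : ℤ) : ℚ) = x := by
    have h8 : aff a b (B 0) (x : ℚ) = (((T a b)^[(B 0).length] x : ℤ) : ℚ) := by
      unfold aff
      rw [div_eq_iff (by positivity), mul_comm _ ((2 : ℚ) ^ _)]
      exact h4.symm
    rw [← h8, h3]
  have h9 : (T a b)^[(B 0).length] x = x := by exact_mod_cast h7
  refine hmin (B 0).length ?_ ?_ h9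
  · rcases h2 with h | h <;> rw [h]
    · exact hu
    · exact hv
  · rcases h2 with h | h <;> rw [h] <;> nlinarith

theorem com_le (ha : 3 ≤ a) (u v : List Bool) : |(com a u v : ℝ)| ≤
    2 * (2 ^ (u.length + v.length) * ((a : ℝ) / 2) ^ (u.count true + v.count true)) := by
  have haR : (3 : ℝ) ≤ a := by exact_mod_cast ha
  have key : ∀ u v : List Bool, |(cst a u : ℝ) * ((a : ℝ) ^ (v.count true) - 2 ^ v.length)| ≤
      2 ^ (u.length + v.length) * ((a : ℝ) / 2) ^ (u.count true + v.count true) := by
    intro u v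
    have h1 := cst_le' ha u
    have h2 : (0 : ℝ) ≤ cst a u := by exact_mod_cast cst_nonneg ha u
    have h3 : |(a : ℝ) ^ (v.count true) - 2 ^ v.length| ≤
        2 ^ v.length * ((a : ℝ) / 2) ^ (v.count true) := by
      have h4 : (a : ℝ) ^ (v.count true) ≤ 2 ^ v.length * ((a : ℝ) / 2) ^ (v.count true) := by
        have h5 : (2 : ℝ) ^ (v.count true) ≤ 2 ^ v.length :=
          pow_le_pow_right₀ (by norm_num) List.count_le_length
        calc (a : ℝ) ^ (v.count true) = 2 ^ (v.count true) * ((a : ℝ) / 2) ^ (v.count true) := by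
              rw [← mul_pow, mul_div_cancel₀ _ (two_ne_zero)]
          _ ≤ _ := mul_le_mul_of_nonneg_right h5 (by positivity)
      have h6 : (2 : ℝ) ^ v.length ≤ 2 ^ v.length * ((a : ℝ) / 2) ^ (v.count true) :=
        le_mul_of_one_le_right (by positivity) (one_le_pow₀ (by linarith))
      have h7 : (0 : ℝ) ≤ (a : ℝ) ^ (v.count true) := by positivity
      have h8 : (0 : ℝ) ≤ 2 ^ v.length := by positivity
      rw [abs_le]
      constructor <;> linarith
    rw [abs_mul, abs_of_nonneg h2]
    calc (cst a u : ℝ) * |(a : ℝ) ^ (v.count true) - 2 ^ v.length|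
        ≤ (2 ^ u.length * ((a : ℝ) / 2) ^ (u.count true)) *
          (2 ^ v.length * ((a : ℝ) / 2) ^ (v.count true)) :=
          mul_le_mul h1 h3 (abs_nonneg _) (by positivity)
      _ = _ := by rw [pow_add, pow_add]; ring
  have h1 := key u v
  have h2 := key v u
  rw [add_comm v.length, add_comm (v.count true)] at h2
  unfold com
  push_cast
  refine (abs_sub _ _).trans ?_
  linarith

/-- There are finitely many points of bounded period. -/
theorem finite_periodic (ha : 3 ≤ a) (hao : a % 2 = 1) (hb : b % 2 = 1) (M : ℕ) :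
    {x : ℤ | ∃ n, 1 ≤ n ∧ n ≤ M ∧ (T a b)^[n] x = x}.Finite := by
  apply Set.Finite.subset (Set.finite_Icc (-(|b| * (2 ^ M * a ^ M) : ℤ)) (|b| * (2 ^ M * a ^ M)))
  rintro x ⟨n, hn1, hnM, hx⟩
  have h1 := step hao hb (word a b x n) x (by rw [word_length])
  rw [word_length, hx] at h1
  set k := (word a b x n).count true with hk
  have hkn : k ≤ n := by
    have := List.count_le_length (a := true) (l := word a b x n)
    rwa [word_length] at this
  have hne : (2 : ℤ) ^ n ≠ a ^ k := pow_ne hao n k hn1
  have h2 := cst_le ha (word a b x n)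
  have h3 := cst_nonneg ha (word a b x n)
  rw [word_length, ← hk] at h2
  set c := cst a (word a b x n) with hc
  have h4 : c ≤ 2 ^ n * a ^ k := by
    have h5 : (1 : ℤ) ≤ 2 ^ k := one_le_pow₀ (by norm_num)
    have h6 : (0 : ℤ) ≤ 2 ^ n := by positivity
    nlinarith
  have h5 : (2 : ℤ) ^ n * a ^ k ≤ 2 ^ M * a ^ M :=
    mul_le_mul (pow_le_pow_right₀ (by norm_num) hnM)
      (pow_le_pow_right₀ (by linarith) (hkn.trans hnM)) (by positivity) (by positivity)
  have h6 : |x| ≤ |b| * c := by
    have h7 : (2 ^ n - a ^ k : ℤ) * x = b * c := by linarith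
    have h8 : 1 ≤ |(2 ^ n - a ^ k : ℤ)| := Int.one_le_abs (sub_ne_zero.2 hne)
    calc |x| = 1 * |x| := (one_mul _).symm
      _ ≤ |(2 ^ n - a ^ k : ℤ)| * |x| := mul_le_mul_of_nonneg_right h8 (abs_nonneg _)
      _ = |b * c| := by rw [← abs_mul, h7]
      _ = |b| * c := by rw [abs_mul, abs_of_nonneg h3]
  have h9 := abs_le.1 (h6.trans (mul_le_mul_of_nonneg_left (h4.trans h5) (abs_nonneg b)))
  exact Set.mem_Icc.2 h9

end Pool.Agent.H944.BX
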