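import Mathlib
import Pool.Agent.H944.BX.Zero

/-!
The proportion of odd elements in cycles with large elements, and the cycles with a small element.
-/

set_option autoImplicit false

namespace Pool.Agent.H944.BX

open Finset

variable {a b : ℤ}

theorem sq_bound (ha : 3 ≤ a) (hao : a % 2 = 1) (hb : b % 2 = 1) (x : ℤ) (n : ℕ)
    (h : ∀ i < n, 2 * |b| ≤ |(T a b)^[i] x|) :
    x ^ 2 * a ^ (2 * (word a b x n).count true) ≤
      2 ^ (2 * n + (word a b x n).count true) * ((T a b)^[n] x) ^ 2 := by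
  induction n with
  | zero => simp [word]
  | succ n ih =>
    have h1 := ih fun i hi => h i (by omega)
    have h2 := h n (by omega)
    rw [word_add, List.count_append, Function.iterate_succ_apply']
    set y := (T a b)^[n] x
    set k := (word a b x n).count true
    have h3 : word a b y 1 = [decide (y % 2 = 1)] := by
      rw [show (1 : ℕ) = 0 + 1 by rfl, word_succ]
      rfl
    rw [h3]
    by_cases hy : y % 2 = 1
    · rw [decide_eq_true hy]
      have h4 : List.count true [true] = 1 := rfl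
      rw [h4]
      have hT := two_mul_T_odd hao hb hy
      have h5 : a ^ 2 * y ^ 2 ≤ 2 * (2 * T a b y) ^ 2 := by
        rw [hT]
        have h6 : 4 * a * (-(b * y)) ≤ 2 * a * y ^ 2 := by
          have h7 : -(b * y) ≤ |b| * |y| := by rw [← abs_mul]; exact neg_le_abs _
          have h8 : 2 * (|b| * |y|) ≤ y ^ 2 := by
            rw [← sq_abs y]
            nlinarith [abs_nonneg y]
          nlinarith
        have h9 : 0 ≤ a * (a - 2) * y ^ 2 := by
          have : 0 ≤ a * (a - 2) := by nlinarith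
          positivity
        nlinarith [sq_nonneg b]
      have e1 : x ^ 2 * a ^ (2 * (k + 1)) = (x ^ 2 * a ^ (2 * k)) * a ^ 2 := by ring
      have e2 : (2 : ℤ) ^ (2 * (n + 1) + (k + 1)) * (T a b y) ^ 2 =
          2 ^ (2 * n + k) * (2 * (2 * T a b y) ^ 2) := by ring
      rw [e1, e2]
      calc x ^ 2 * a ^ (2 * k) * a ^ 2 ≤ (2 ^ (2 * n + k) * y ^ 2) * a ^ 2 :=
            mul_le_mul_of_nonneg_right h1 (by positivity)
        _ = 2 ^ (2 * n + k) * (a ^ 2 * y ^ 2) := by ring
        _ ≤ _ := mul_le_mul_of_nonneg_left h5 (by positivity)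
    · rw [decide_eq_false hy]
      have h4 : List.count true [false] = 0 := rfl
      rw [h4, add_zero]
      have hT : 2 * T a b y = y := two_mul_T_even hy
      have e2 : (2 : ℤ) ^ (2 * (n + 1) + k) * (T a b y) ^ 2 =
          2 ^ (2 * n + k) * (2 * T a b y) ^ 2 := by ring
      rw [e2, hT]
      exact h1

theorem count_bound (ha : 3 ≤ a) (hao : a % 2 = 1) (hb : b % 2 = 1) (x : ℤ) (n : ℕ)
    (hx : (T a b)^[n] x = x) (h : ∀ i, 2 * |b| ≤ |(T a b)^[i] x|) :
    ((word a b x n).count true : ℝ) * (2 * Real.logb 2 a - 1) ≤ 2 * n := by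
  have h1 := sq_bound ha hao hb x n fun i _ => h i
  rw [hx] at h1
  set k := (word a b x n).count true
  have hx0 : 0 < x ^ 2 := by
    have h2 := h 0
    rw [Function.iterate_zero_apply] at h2
    have h3 : 0 < |b| := abs_pos.2 (by rintro rfl; norm_num at hb)
    have h4 : 0 < |x| := by linarith
    have := abs_pos.1 h4
    positivity
  have h2 : a ^ (2 * k) ≤ 2 ^ (2 * n + k) := by
    rw [mul_comm] at h1
    exact le_of_mul_le_mul_right h1 hx0
  have haR : (3 : ℝ) ≤ a := by exact_mod_cast ha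
  have h3 : ((a : ℝ)) ^ (2 * k) ≤ 2 ^ (2 * n + k) := by exact_mod_cast h2
  have h4 := Real.logb_le_logb_of_le (b := 2) (by norm_num) (by positivity) h3
  rw [Real.logb_pow, Real.logb_pow, Real.logb_self_eq_one (by norm_num)] at h4
  push_cast at h4
  linarith

theorem finite_small : {x : ℤ | ∃ n, 1 ≤ n ∧ (T a b)^[n] x = x ∧
    ∃ i, |(T a b)^[i] x| < 2 * |b|}.Finite := by
  have h1 : ∀ y : ℤ, {z : ℤ | (∃ n, 1 ≤ n ∧ (T a b)^[n] y = y) ∧ ∃ j, (T a b)^[j] y = z}.Finite := by
    intro y
    by_cases hy : ∃ n, 1 ≤ n ∧ (T a b)^[n] y = y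
    · obtain ⟨n, hn, hy⟩ := hy
      refine ((Set.finite_lt_nat n).image fun j => (T a b)^[j] y).subset ?_
      rintro z ⟨_, j, rfl⟩
      refine ⟨j % n, Nat.mod_lt _ hn, ?_⟩
      exact Function.IsPeriodicPt.iterate_mod_apply (f := T a b) (x := y) (n := n) hy j
    · refine Set.finite_empty.subset ?_
      rintro z ⟨h, _⟩
      exact absurd h hy
  refine ((Set.finite_Icc (-(2 * |b|)) (2 * |b|)).biUnion fun y _ => h1 y).subset ?_
  rintro x ⟨n, hn, hx, i, hi⟩
  refine Set.mem_biUnion (x := (T a b)^[i] x) (Set.mem_Icc.2 ⟨?_, ?_⟩) ⟨⟨n, hn, ?_⟩, n * i - i, ?_⟩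
  · exact (abs_lt.1 hi).1.le
  · exact (abs_lt.1 hi).2.le
  · rw [← Function.iterate_add_apply, add_comm, Function.iterate_add_apply, hx]
  · have h2 : i ≤ n * i := by nlinarith
    rw [← Function.iterate_add_apply, Nat.sub_add_cancel h2]
    exact Function.IsPeriodicPt.mul_const (f := T a b) (x := x) (m := n) hx i

end Pool.Agent.H944.BX
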